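import Pool.Agent.R194.GC.Final

/-!
# Coexistence of two grand canards on the two-torus is locally topologically generic

There is a nonempty open set `U` of slow-fast systems on the two-torus with simple unconnected slow
curve and a residual subset `𝒢` of `U` such that every system in `𝒢` has intervals of parameters
`ε`, accumulating at `0`, for which it has grand canards of both types `1 → 2` and `2 → 1`. In fact
the property is residual in the space of all systems (where it is required for the systems whose
slow curve is simple unconnected).

The components of the slow curve are indexed by `0, 1 : Fin 2` (for `1, 2` of the problem).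
The definitions `Sys` (systems), its `C^∞` topology (uniform convergence of all derivatives on
compact sets) and `jets` are in `Pool/Agent/R194/GC/Sys.lean`; `Oval`, `SlowCurve`,
`SimpleUnconnected`, `GrandCanard` are in `Pool/Agent/R194/GC/Slow.lean`.
-/

set_option autoImplicit false

open Topology Filter Set Pool.Agent.R194.GC

namespace Pool.Agent.Results.MP_589d2d_an.GrandCanards

/-- For the segments `J_i^- = [um i, vm i] × {αm i}` and `J_i^+ = [up i, vp i] × {αp i}` there are
nondegenerate intervals `I_n = [l n, r n] ⊂ (0, ∞)`, accumulating at `0`, such that for every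
`ε ∈ I_n` the system has grand canards of both types: from `J_0^-` to `J_1^+` and from `J_1^-` to
`J_0^+`. -/
def Coexistence (s : Sys) (αm um vm αp up vp : Fin 2 → ℝ) : Prop :=
  ∃ l r : ℕ → ℝ, (∀ n, 0 < l n ∧ l n < r n) ∧ Tendsto r atTop (𝓝 0) ∧
    ∀ n, ∀ e ∈ Icc (l n) (r n),
      GrandCanard s e (αm 0) (um 0) (vm 0) (αp 1) (up 1) (vp 1) ∧
      GrandCanard s e (αm 1) (um 1) (vm 1) (αp 0) (up 0) (vp 0)

/-- The levels of the segments are over the arcs `(a_i, b_i)` of the components of the slow curve. -/
def Levels (a b αm αp : Fin 2 → ℝ) : Prop :=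
  (∀ i, αm i ∈ Ioo (a i) (b i)) ∧ (∀ i, αp i ∈ Ioo (a i) (b i))

/-- The segments `J_i^-` meet (in their interior, modulo `2π`) the attracting parts `x = m i y`, and
the segments `J_i^+` meet the repelling parts `x = p i y` of the slow curve. -/
def Meet (m p : Fin 2 → ℝ → ℝ) (αm um vm αp up vp : Fin 2 → ℝ) : Prop :=
  (∀ i, ∃ k : ℤ, m i (αm i) + k * (2 * Real.pi) ∈ Ioo (um i) (vm i)) ∧
  (∀ i, ∃ k : ℤ, p i (αp i) + k * (2 * Real.pi) ∈ Ioo (up i) (vp i))

/-- **Both types of grand canards coexist** for the system `s`, for all choices of the segments. -/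
def Good (s : Sys) : Prop :=
  ∀ (a b : Fin 2 → ℝ) (m p : Fin 2 → ℝ → ℝ), SlowCurve s a b m p →
    ∀ αm um vm αp up vp : Fin 2 → ℝ, Levels a b αm αp → Meet m p αm um vm αp up vp →
      Coexistence s αm um vm αp up vp

/-- Both types coexist for given segments of positive length, wherever they are (if their levels
are over the arcs of the components of the slow curve). -/
def GoodFor (αm um vm αp up vp : Fin 2 → ℝ) (s : Sys) : Prop :=
  ∀ (a b : Fin 2 → ℝ) (m p : Fin 2 → ℝ → ℝ), SlowCurve s a b m p →
    Levels a b αm αp → Coexistence s αm um vm αp up vp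

/-- **Coexistence of the two types of grand canards is (locally) topologically generic.**
(1) There are a nonempty open set `U` of systems, all with simple unconnected slow curve, and a
residual subset `𝒢` of `U`, all of whose systems are good.
(2) The set of good systems is residual in the space of all systems.
(3) For any segments of positive length, fixed in advance, the systems for which both types of grand
canards between these segments coexist (if the slow curve is simple unconnected and the levels are
over the arcs of its components) form a residual set. -/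
theorem result :
    (∃ U 𝒢 : Set Sys, IsOpen U ∧ U.Nonempty ∧ (∀ s ∈ U, SimpleUnconnected s) ∧ 𝒢 ⊆ U ∧
      {s : U | (s : Sys) ∈ 𝒢} ∈ residual U ∧ ∀ s ∈ 𝒢, Good s) ∧
    {s : Sys | Good s} ∈ residual Sys ∧
    ∀ αm um vm αp up vp : Fin 2 → ℝ, (∀ i, um i < vm i) → (∀ i, up i < vp i) →
      {s : Sys | GoodFor αm um vm αp up vp s} ∈ residual Sys := by
  have h2 : {s : Sys | Good s} ∈ residual Sys := by
    refine mem_of_superset Gen_residual fun s hs a b m p h αm um vm αp up vp hl hm => ?_
    exact coexist hs h hl.1 hl.2 hm.1 hm.2
  refine ⟨⟨UU, UU ∩ {s | Good s}, isOpen_UU, ⟨base, base_mem⟩, fun s hs => simple_of_mem hs,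
    inter_subset_left, ?_, fun s hs => hs.2⟩, h2, fun αm um vm αp up vp hu hp => ?_⟩
  · have h3 : Tendsto (Subtype.val : UU → Sys) (residual UU) (residual Sys) :=
      tendsto_residual_of_isOpenMap continuous_subtype_val isOpen_UU.isOpenMap_subtype_val
    filter_upwards [h3 h2] with s hs
    exact ⟨s.2, hs⟩
  · refine mem_of_superset (GenFix_residual αm um vm αp up vp) fun s hs a b m p h hl => ?_
    exact coexist_fix hu hp hs h hl.1 hl.2

end Pool.Agent.Results.MP_589d2d_an.GrandCanards
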